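import Pool.Agent.Helper96.Curl.Liou
import Pool.Agent.Helper42.Curl.WC

/-! C-LIOU with the weak compactness filled in. -/

open MeasureTheory Set Filter Topology Metric
open scoped ContDiff RealInnerProductSpace
open Pool.Agent.Helper38.Curl

namespace Pool.Agent.Helper96.Curl

theorem liouville_compact (hSC : HypSC) (hHR : HypHR) (hWK : HypWK)
    {v : ℕ → E → E} {y : ℕ → E} {c K : ℝ} (hc : 0 < c)
    (hv : ∀ n, MemLp (v n) 2) (hd : ∀ n η, TestF η → ∫ x, fderiv ℝ η x (v n x) = 0)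
    (hg : ∀ R, 1 ≤ R → ∀ᶠ n in atTop, sqOn (ball 0 R) (v n) ≤ K * R ^ 3)
    (hy : ∀ n, ‖y n‖ ≤ 1) (hz : ∀ n, ∀ᵐ x, x ∈ ball (y n) c → v n x = 0)
    (hα : ∀ R, 0 < R → ∀ ε, 0 < ε → ∀ᶠ n in atTop, ∀ r, Sol (closedBall 0 R) r →
      |ip (v n) r| ≤ ε * √(sq r)) :
    Tendsto (fun n => sqOn (ball 0 1) (v n)) atTop (𝓝 0) :=
  liouville_compact' (fun h1 h2 => Pool.Agent.Helper42.Curl.weak_compact h1 h2) hSC hHR hWK hc hv hd
    hg hy hz hα

end Pool.Agent.Helper96.Curl
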