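import Pool.Agent.Helper38.Curl.ApiM

/-! C-LIOU: compactness and the Liouville theorem. -/

open MeasureTheory Set Filter Topology Metric
open scoped ContDiff RealInnerProductSpace
open Pool.Agent.Helper38.Curl

namespace Pool.Agent.Helper96.Curl

/-- weak compactness -/
def HypWC : Prop := ∀ {v : ℕ → E → E} (_ : ∀ n, MemLp (v n) 2)
    (_ : ∀ R, ∃ C, ∀ᶠ n in atTop, sqOn (ball 0 R) (v n) ≤ C),
    ∃ σ : ℕ → ℕ, StrictMono σ ∧ ∃ V : E → E, (∀ R, MemLp V 2 (volume.restrict (ball 0 R))) ∧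
      WkTo (fun n => v (σ n)) V

/-- strong convergence -/
def HypSC : Prop := ∀ {z : E} {ρ : ℝ} (_ : 0 < ρ) {v : ℕ → E → E} {V : E → E}
    (_ : ∀ n, MemLp (v n) 2) (_ : ∀ n η, TestF η → ∫ x, fderiv ℝ η x (v n x) = 0) {C : ℝ}
    (_ : ∀ᶠ n in atTop, sqOn (ball z ρ) (v n) ≤ C)
    (_ : ∀ ε, 0 < ε → ∀ᶠ n in atTop, ∀ r, Sol (closedBall z ρ) r →
      |ip (v n) r| ≤ ε * √(sq r))
    (_ : MemLp V 2 (volume.restrict (closedBall z ρ))) (_ : WkTo v V),
    Tendsto (fun n => sqOn (ball z (ρ / 2)) (fun x => v n x - V x)) atTop (𝓝 0) ∧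
      WH (ball z ρ) V

/-- harmonic representative -/
def HypHR : Prop := ∀ {U : Set E} (_ : IsOpen U) {V : E → E}
    (_ : ∀ z ρ, closedBall z ρ ⊆ U → MemLp V 2 (volume.restrict (closedBall z ρ)))
    (_ : ∀ z ρ, 0 < ρ → closedBall z ρ ⊆ U → WH (ball z ρ) V),
    ∃ F : E → E, ContinuousOn F U ∧ (∀ᵐ x, x ∈ U → F x = V x) ∧
      ∀ x r, 0 < r → closedBall x r ⊆ U → F x = mol r V x

/-- weak lower semicontinuity -/
def HypWK : Prop := ∀ {v : ℕ → E → E} {V : E → E} (_ : WkTo v V) (_ : ∀ n, MemLp (v n) 2)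
    {S : Set E} (_ : MeasurableSet S) (_ : Bornology.IsBounded S)
    (_ : MemLp V 2 (volume.restrict S)) {C : ℝ} (_ : ∀ᶠ n in atTop, sqOn S (v n) ≤ C),
    sqOn S V ≤ C

theorem contDiff_kap0 : ContDiff ℝ ∞ kap0 := by
  unfold kap0
  exact (expNegInvGlue.contDiff (n := ⊤)).comp (contDiff_const.sub (contDiff_norm_sq ℝ))

theorem kap0_eq_zero {y : E} (hy : 1 ≤ ‖y‖) : kap0 y = 0 := by
  unfold kap0
  apply expNegInvGlue.zero_of_nonpos
  nlinarith

theorem hasCompactSupport_kap0 : HasCompactSupport kap0 := by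
  refine HasCompactSupport.intro (isCompact_closedBall (0 : E) 1) fun x hx => ?_
  apply kap0_eq_zero
  have : ¬ ‖x‖ ≤ 1 := by simpa using hx
  exact (not_le.1 this).le

theorem exists_lip : ∃ L : ℝ, 0 ≤ L ∧ ∀ (r : ℝ), 0 < r → ∀ u u' : E,
    |kap r u - kap r u'| ≤ L * (r ^ 4)⁻¹ * ‖u - u'‖ := by
  obtain ⟨C, hC⟩ := contDiff_kap0.lipschitzWith_of_hasCompactSupport hasCompactSupport_kap0
    (by simp)
  refine ⟨|(∫ z, kap0 z)⁻¹| * C, by positivity, fun r hr u u' => ?_⟩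
  have h1 := hC.norm_sub_le (r⁻¹ • u) (r⁻¹ • u')
  rw [← smul_sub, norm_smul, Real.norm_eq_abs, Real.norm_eq_abs, abs_of_pos (inv_pos.2 hr)] at h1
  unfold kap
  rw [← mul_sub, abs_mul, abs_mul, abs_of_pos (inv_pos.2 (pow_pos hr 3))]
  calc |(∫ z, kap0 z)⁻¹| * (r ^ 3)⁻¹ * |kap0 (r⁻¹ • u) - kap0 (r⁻¹ • u')|
      ≤ |(∫ z, kap0 z)⁻¹| * (r ^ 3)⁻¹ * (C * (r⁻¹ * ‖u - u'‖)) := by gcongr
    _ = |(∫ z, kap0 z)⁻¹| * C * (r ^ 4)⁻¹ * ‖u - u'‖ := by
        field_simp

theorem kap_eq_zero' {r : ℝ} (hr : 0 < r) {y : E} (hy : r ≤ ‖y‖) : kap r y = 0 := by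
  unfold kap
  rw [kap0_eq_zero, mul_zero]
  rw [norm_smul, Real.norm_eq_abs, abs_of_pos (inv_pos.2 hr), ← div_eq_inv_mul, one_le_div hr]
  exact hy

theorem continuous_kap (r : ℝ) : Continuous (kap r) := by
  unfold kap
  exact continuous_const.mul (contDiff_kap0.continuous.comp (continuous_const_smul _))

theorem integrableOn_of_memLp {V : E → E} {R : ℝ} (hV : MemLp V 2 (volume.restrict (ball 0 R))) :
    IntegrableOn V (ball 0 R) := by
  have : IsFiniteMeasure (volume.restrict (ball (0 : E) R)) :=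
    ⟨by rw [Measure.restrict_apply_univ]; exact measure_ball_lt_top⟩
  exact hV.integrable (by norm_num)

theorem volume_real_ball (R : ℝ) (hR : 0 ≤ R) :
    volume.real (ball (0 : E) R) = R ^ 3 * volume.real (ball (0 : E) 1) := by
  rw [Measure.real, Measure.real, Measure.addHaar_ball _ _ hR]
  simp [ENNReal.toReal_mul, ENNReal.toReal_ofReal, hR]

/-- the kernel estimate -/
theorem norm_mol_sub_le {L : ℝ} (hL0 : 0 ≤ L) (hL : ∀ (r : ℝ), 0 < r → ∀ u u' : E,
    |kap r u - kap r u'| ≤ L * (r ^ 4)⁻¹ * ‖u - u'‖) {V : E → E}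
    (hV : ∀ R, MemLp V 2 (volume.restrict (ball 0 R))) {K : ℝ}
    (hK : ∀ R, 1 ≤ R → sqOn (ball 0 R) V ≤ K * R ^ 3) {r : ℝ} (hr : 1 ≤ r) {x x' : E}
    (hx : ‖x‖ ≤ r) (hx' : ‖x'‖ ≤ r) :
    ‖mol r V x - mol r V x'‖ ≤
      L * ‖x - x'‖ * (4 * (volume.real (ball (0 : E) 1) + K)) * r⁻¹ := by
  have hr0 : 0 < r := by linarith
  have hint : IntegrableOn V (ball 0 (2 * r)) := integrableOn_of_memLp (hV _)
  have hbd : ∃ M : ℝ, ∀ y, |kap r y| ≤ M := by
    have h1 : HasCompactSupport (kap r) := by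
      refine HasCompactSupport.intro (isCompact_closedBall (0 : E) r) fun x hx => ?_
      apply kap_eq_zero' hr0
      have : ¬ ‖x‖ ≤ r := by simpa using hx
      exact (not_le.1 this).le
    obtain ⟨M, hM⟩ := h1.exists_bound_of_continuous (continuous_kap r)
    exact ⟨M, hM⟩
  obtain ⟨M, hM⟩ := hbd
  have hset : ∀ z : E, ‖z‖ ≤ r → mol r V z = ∫ y in ball 0 (2 * r), kap r (z - y) • V y := by
    intro z hz
    unfold mol
    rw [← integral_indicator measurableSet_ball]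
    congr 1
    ext1 y
    by_cases hy : y ∈ ball (0 : E) (2 * r)
    · rw [indicator_of_mem hy]
    · rw [indicator_of_notMem hy, kap_eq_zero' hr0, zero_smul]
      have h1 : 2 * r ≤ ‖y‖ := by simpa using hy
      have h2 : ‖y‖ ≤ ‖z - y‖ + ‖z‖ := by
        have := norm_sub_le z (z - y)
        rw [sub_sub_cancel] at this
        linarith
      linarith
  have hkint : ∀ z : E, IntegrableOn (fun y => kap r (z - y) • V y) (ball 0 (2 * r)) := by
    intro z
    have hm : AEStronglyMeasurable (fun y => kap r (z - y))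
        (volume.restrict (ball (0 : E) (2 * r))) :=
      ((continuous_kap r).comp (continuous_const.sub continuous_id)).aestronglyMeasurable
    exact hint.bdd_smul M hm (Eventually.of_forall fun y => hM _)
  rw [hset x hx, hset x' hx', ← integral_sub (hkint x) (hkint x')]
  have hsq : sqOn (ball 0 (2 * r)) V ≤ K * (2 * r) ^ 3 := hK _ (by linarith)
  have hIsq : IntegrableOn (fun y => ‖V y‖ ^ 2) (ball 0 (2 * r)) := integrableOn_norm_sq (hV _)
  have hfin : volume (ball (0 : E) (2 * r)) ≠ ⊤ := measure_ball_lt_top.ne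
  have h1int : IntegrableOn (fun _ : E => (1 : ℝ)) (ball 0 (2 * r)) :=
    integrableOn_const hfin
  have h2 : ∫ y in ball (0 : E) (2 * r), (1 + ‖V y‖ ^ 2) / 2 ≤
      4 * (volume.real (ball (0 : E) 1) + K) * r ^ 3 := by
    have h3 : ∫ y in ball (0 : E) (2 * r), (1 + ‖V y‖ ^ 2) / 2 =
        (volume.real (ball (0 : E) (2 * r)) + sqOn (ball 0 (2 * r)) V) / 2 := by
      rw [integral_div, integral_add h1int hIsq]
      simp [sqOn, Measure.real]
    rw [h3, volume_real_ball _ (by positivity)]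
    have : (2 * r) ^ 3 = 8 * r ^ 3 := by ring
    rw [this] at hsq ⊢
    linarith
  calc ‖∫ y in ball (0 : E) (2 * r), (kap r (x - y) • V y - kap r (x' - y) • V y)‖
      ≤ ∫ y in ball (0 : E) (2 * r), L * (r ^ 4)⁻¹ * ‖x - x'‖ * ((1 + ‖V y‖ ^ 2) / 2) := by
        refine norm_integral_le_of_norm_le ?_ (Eventually.of_forall fun y => ?_)
        · exact ((h1int.add hIsq).div_const 2).const_mul _
        · rw [← sub_smul, norm_smul, Real.norm_eq_abs]
          have h4 := hL r hr0 (x - y) (x' - y)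
          rw [sub_sub_sub_cancel_right] at h4
          have h5 : ‖V y‖ ≤ (1 + ‖V y‖ ^ 2) / 2 := by nlinarith [sq_nonneg (‖V y‖ - 1)]
          exact mul_le_mul h4 h5 (norm_nonneg _) (by positivity)
    _ = L * (r ^ 4)⁻¹ * ‖x - x'‖ * ∫ y in ball (0 : E) (2 * r), (1 + ‖V y‖ ^ 2) / 2 :=
        integral_const_mul _ _
    _ ≤ L * (r ^ 4)⁻¹ * ‖x - x'‖ * (4 * (volume.real (ball (0 : E) 1) + K) * r ^ 3) := by
        gcongr
    _ = _ := by
        field_simp

/-- Liouville theorem. -/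
theorem liouville {V F : E → E} (hV : ∀ R, MemLp V 2 (volume.restrict (ball 0 R))) {K : ℝ}
    (hK : ∀ R, 1 ≤ R → sqOn (ball 0 R) V ≤ K * R ^ 3)
    (hF : ∀ x r, 0 < r → F x = mol r V x) (x x' : E) : F x = F x' := by
  obtain ⟨L, hL0, hL⟩ := exists_lip
  set C := L * ‖x - x'‖ * (4 * (volume.real (ball (0 : E) 1) + K)) with hC
  have h1 : ∀ᶠ r : ℝ in atTop, ‖F x - F x'‖ ≤ C * r⁻¹ := by
    filter_upwards [eventually_ge_atTop 1, eventually_ge_atTop ‖x‖, eventually_ge_atTop ‖x'‖]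
      with r h1 h2 h3
    rw [hF x r (by linarith), hF x' r (by linarith)]
    exact norm_mol_sub_le hL0 hL hV hK h1 h2 h3
  have h2 : Tendsto (fun r : ℝ => C * r⁻¹) atTop (𝓝 0) := by
    simpa using tendsto_inv_atTop_zero.const_mul C
  have h3 : ‖F x - F x'‖ ≤ 0 := ge_of_tendsto h2 h1
  exact sub_eq_zero.1 (norm_le_zero_iff.1 h3)

theorem liouville_compact' (hWC : HypWC) (hSC : HypSC) (hHR : HypHR) (hWK : HypWK)
    {v : ℕ → E → E} {y : ℕ → E} {c K : ℝ} (hc : 0 < c)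
    (hv : ∀ n, MemLp (v n) 2) (hd : ∀ n η, TestF η → ∫ x, fderiv ℝ η x (v n x) = 0)
    (hg : ∀ R, 1 ≤ R → ∀ᶠ n in atTop, sqOn (ball 0 R) (v n) ≤ K * R ^ 3)
    (hy : ∀ n, ‖y n‖ ≤ 1) (hz : ∀ n, ∀ᵐ x, x ∈ ball (y n) c → v n x = 0)
    (hα : ∀ R, 0 < R → ∀ ε, 0 < ε → ∀ᶠ n in atTop, ∀ r, Sol (closedBall 0 R) r →
      |ip (v n) r| ≤ ε * √(sq r)) :
    Tendsto (fun n => sqOn (ball 0 1) (v n)) atTop (𝓝 0) := by
  refine tendsto_of_subseq_tendsto fun ns hns => ?_
  -- the first subsequence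
  obtain ⟨σ, hσ, V, hV, hw⟩ := hWC (v := fun n => v (ns n)) (fun n => hv _) (by
    intro R
    refine ⟨K * (max R 1) ^ 3, ?_⟩
    filter_upwards [hns.eventually (hg (max R 1) (le_max_right _ _))] with n hn
    exact (sqOn_mono (ball_subset_ball (le_max_left _ _)) ((hv _).restrict _)).trans hn)
  -- the second subsequence
  obtain ⟨y₀, hy₀, τ, hτ, hyτ⟩ := (isCompact_closedBall (0 : E) 1).tendsto_subseq
    (x := fun n => y (ns (σ n))) (fun n => by simpa using hy _)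
  set κ : ℕ → ℕ := fun n => ns (σ (τ n)) with hκ
  have hκt : Tendsto κ atTop atTop := hns.comp (hσ.tendsto_atTop.comp hτ.tendsto_atTop)
  have hwκ : WkTo (fun n => v (κ n)) V := WkTo.comp (v := fun n => v (ns (σ n))) hw hτ
  refine ⟨fun n => σ (τ n), ?_⟩
  -- strong convergence
  have hVc : ∀ z : E, ∀ ρ : ℝ, MemLp V 2 (volume.restrict (closedBall z ρ)) := by
    intro z ρ
    refine (hV (‖z‖ + ρ + 1)).mono_measure (Measure.restrict_mono ?_ le_rfl)
    intro x hx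
    rw [mem_closedBall, dist_eq_norm] at hx
    rw [mem_ball_zero_iff]
    have := norm_sub_norm_le x z
    linarith
  have hsc : ∀ ρ : ℝ, 1 ≤ ρ →
      Tendsto (fun n => sqOn (ball 0 (ρ / 2)) (fun x => v (κ n) x - V x)) atTop (𝓝 0) ∧
      WH (ball 0 ρ) V := by
    intro ρ hρ
    exact hSC (z := 0) (ρ := ρ) (by linarith) (v := fun n => v (κ n)) (fun n => hv _)
      (fun n => hd _) (hκt.eventually (hg ρ hρ))
      (fun ε hε => hκt.eventually (hα ρ (by linarith) ε hε)) (hVc 0 ρ) hwκ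
  obtain ⟨F, hFc, hFV, hF⟩ := hHR (U := univ) isOpen_univ (V := V) (fun z ρ _ => hVc z ρ) (by
    intro z ρ hρ _ φ hφ
    refine (hsc (‖z‖ + ρ + 1) (by have := norm_nonneg z; linarith)).2 φ ⟨hφ.1, ?_⟩
    refine hφ.2.trans fun x hx => ?_
    rw [mem_ball, dist_eq_norm] at hx
    rw [mem_ball_zero_iff]
    have := norm_sub_norm_le x z
    linarith)
  have hgrow : ∀ R, 1 ≤ R → sqOn (ball 0 R) V ≤ K * R ^ 3 := fun R hR =>
    hWK hwκ (fun n => hv _) measurableSet_ball isBounded_ball (hV R) (hκt.eventually (hg R hR))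
  have hconst := liouville hV hgrow (F := F) fun x r hr => hF x r hr (subset_univ _)
  -- `V` vanishes near `y₀`
  set ρ : ℝ := 2 * (1 + c) with hρ
  have hρ1 : 1 ≤ ρ := by rw [hρ]; linarith
  have hs := (hsc ρ hρ1).1
  have hρ2 : ρ / 2 = 1 + c := by rw [hρ]; ring
  rw [hρ2] at hs
  have hdiff : ∀ (n : ℕ) (S : Set E), S ⊆ ball 0 (1 + c) →
      sqOn S (fun x => v (κ n) x - V x) ≤ sqOn (ball 0 (1 + c)) (fun x => v (κ n) x - V x) := by
    intro n S hS
    exact sqOn_mono hS (((hv _).restrict _).sub (hV _))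
  have hy₀1 : ‖y₀‖ ≤ 1 := by simpa using hy₀
  have hzero : sqOn (ball y₀ (c / 2)) V = 0 := by
    apply le_antisymm _ (sqOn_nonneg _ _)
    refine ge_of_tendsto hs ?_
    have hev : ∀ᶠ n in atTop, dist (y (κ n)) y₀ < c / 2 :=
      (Metric.tendsto_nhds.1 hyτ) (c / 2) (by positivity)
    filter_upwards [hev] with n hn
    have hsub : ball y₀ (c / 2) ⊆ ball (y (κ n)) c := by
      intro x hx
      rw [mem_ball] at hx ⊢
      calc dist x (y (κ n)) ≤ dist x y₀ + dist y₀ (y (κ n)) := dist_triangle _ _ _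
        _ < c / 2 + c / 2 := by rw [dist_comm y₀]; linarith
        _ = c := by ring
    have hsub2 : ball y₀ (c / 2) ⊆ ball 0 (1 + c) := by
      intro x hx
      rw [mem_ball, dist_eq_norm] at hx
      rw [mem_ball_zero_iff]
      have := norm_sub_norm_le x y₀
      linarith
    have h1 : sqOn (ball y₀ (c / 2)) V = sqOn (ball y₀ (c / 2)) (fun x => v (κ n) x - V x) := by
      unfold sqOn
      apply setIntegral_congr_ae measurableSet_ball
      filter_upwards [hz (κ n)] with x hx hxb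
      rw [hx (hsub hxb), zero_sub, norm_neg]
    rw [h1]
    exact hdiff n _ hsub2
  -- so `F = 0`
  have hF0 : ∀ x, F x = 0 := by
    intro x
    have h1 : sqOn (ball y₀ (c / 2)) V = volume.real (ball y₀ (c / 2)) * ‖F x‖ ^ 2 := by
      unfold sqOn
      have h2 : ∫ z in ball y₀ (c / 2), ‖V z‖ ^ 2 = ∫ _ in ball y₀ (c / 2), ‖F x‖ ^ 2 := by
        apply setIntegral_congr_ae measurableSet_ball
        filter_upwards [hFV] with z hz _
        rw [← hz (mem_univ _), hconst z x]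
      rw [h2, setIntegral_const, smul_eq_mul]
    rw [hzero] at h1
    have h3 : 0 < volume.real (ball y₀ (c / 2)) :=
      ENNReal.toReal_pos (measure_ball_pos _ _ (by positivity)).ne' measure_ball_lt_top.ne
    have h4 : ‖F x‖ ^ 2 = 0 := by
      rcases mul_eq_zero.1 h1.symm with h | h
      · exact absurd h h3.ne'
      · exact h
    exact norm_eq_zero.1 (pow_eq_zero_iff (two_ne_zero)|>.1 h4)
  have hV0 : ∀ᵐ x, V x = 0 := by
    filter_upwards [hFV] with x hx
    rw [← hx (mem_univ _), hF0 x]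
  refine squeeze_zero (fun n => sqOn_nonneg _ _) (fun n => ?_) hs
  have h1 : sqOn (ball 0 1) (v (ns (σ (τ n)))) =
      sqOn (ball 0 1) (fun x => v (κ n) x - V x) := by
    apply sqOn_congr measurableSet_ball
    filter_upwards [hV0] with x hx _
    rw [hx, sub_zero]
  rw [h1]
  exact hdiff n _ (ball_subset_ball (by linarith))

end Pool.Agent.Helper96.Curl
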